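import Pool.Agent.H56.JW.Targets

/-! Board jwq, row ENDQ (helper12). -/

set_option autoImplicit false

open Finset

namespace Pool.Agent.H12.JWQ

open Pool.Agent.H56.JW
open Pool.Agent.H44.HC (StarFree KConn)

/-- minimum degree of a c-connected graph -/
lemma kconn_deg {V : Type} [Fintype V] [DecidableEq V] {c : ℕ} {G : SimpleGraph V}
    (h : KConn c G) (v : V) : ∃ N : Finset V, (∀ w ∈ N, G.Adj v w) ∧ c ≤ N.card := by
  classical
  refine ⟨univ.filter (fun w => G.Adj v w), fun w hw => (mem_filter.1 hw).2, ?_⟩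
  by_contra hcon
  push Not at hcon
  set N := univ.filter (fun w => G.Adj v w) with hN
  have hconn := h.2 N hcon
  have hvN : v ∉ N := by simp [hN]
  have hex : ∃ w, w ∉ N ∧ w ≠ v := by
    by_contra hno
    push Not at hno
    have hsub : (univ : Finset V) ⊆ insert v N := by
      intro w _
      by_cases hw : w ∈ N
      · exact mem_insert_of_mem hw
      · rw [hno w hw]
        exact mem_insert_self _ _
    have h1 := card_le_card hsub
    have h2 := card_insert_le v N
    have h3 := h.1
    rw [card_univ] at h1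
    omega
  obtain ⟨w, hw, hwv⟩ := hex
  have hv' : v ∈ ((N : Set V)ᶜ) := by simpa using hvN
  have hw' : w ∈ ((N : Set V)ᶜ) := by simpa using hw
  obtain ⟨p⟩ := hconn.preconnected ⟨v, hv'⟩ ⟨w, hw'⟩
  cases p with
  | nil => exact hwv rfl
  | @cons _ u _ hadj _ =>
    have h1 : G.Adj v u.1 := hadj
    have h2 : u.1 ∉ N := fun h => u.2 (mem_coe.2 h)
    exact h2 (mem_filter.2 ⟨mem_univ _, h1⟩)

/-- the blocked packed vertices are few -/
lemma blocked_le {V : Type} [Fintype V] [DecidableEq V] {G : SimpleGraph V} {X : Finset V}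
    {lab : V → V} {q m : ℕ} (hP : Pack q m G X lab) (U : Finset (V ⊕ (V × ℕ))) (UP : Finset V)
    (hUP : ∀ b ∈ UP, b ∉ X ∧ (Sum.inl b ∈ U ∨ ∀ s < q, Sum.inr (lab b, s) ∈ U)) :
    ∃ u1 u2, u1 + u2 = U.card ∧ q * UP.card ≤ q * u1 + m * u2 := by
  classical
  refine ⟨(U.filter fun z => z.isLeft = true).card, (U.filter fun z => ¬ z.isLeft = true).card,
    card_filter_add_card_filter_not _, ?_⟩
  have h1 : (UP.filter fun b => Sum.inl b ∈ U).card ≤ (U.filter fun z => z.isLeft = true).card := by
    refine card_le_card_of_injOn (fun b => Sum.inl b) ?_ ?_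
    · intro b hb
      rw [mem_coe, mem_filter] at hb
      rw [mem_coe, mem_filter]
      exact ⟨hb.2, rfl⟩
    · intro b _ b' _ h
      exact Sum.inl_injective h
  set W := UP.filter fun b => ¬ Sum.inl b ∈ U with hW
  have h2 : (W.image lab).card * q ≤ (U.filter fun z => ¬ z.isLeft = true).card := by
    have h3 : ((W.image lab) ×ˢ (range q)).card = (W.image lab).card * q := by
      rw [card_product, card_range]
    rw [← h3]
    refine card_le_card_of_injOn (fun z => Sum.inr z) ?_ ?_
    · intro z hz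
      rw [mem_coe, mem_product, mem_image, mem_range] at hz
      obtain ⟨⟨b, hb, hb1⟩, hz2⟩ := hz
      rw [hW, mem_filter] at hb
      obtain ⟨-, h4⟩ := hUP b hb.1
      have h5 := (h4.resolve_left hb.2) z.2 hz2
      rw [mem_coe, mem_filter]
      refine ⟨?_, by simp⟩
      have h6 : (lab b, z.2) = z := by rw [hb1]
      rw [h6] at h5
      exact h5
    · intro z _ z' _ h
      exact Sum.inr_injective h
  have h3 : W.card ≤ m * (W.image lab).card := by
    refine card_le_mul_card_image W m ?_
    intro a ha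
    obtain ⟨b, hb, rfl⟩ := mem_image.1 ha
    have hb1 := (hUP b (mem_filter.1 hb).1).1
    refine (card_le_card ?_).trans (hP.size b hb1)
    intro x hx
    rw [mem_filter] at hx
    unfold cls
    rw [mem_filter]
    exact ⟨mem_univ _, (hUP x (mem_filter.1 hx.1).1).1, hx.2⟩
  have h4 : UP.card = (UP.filter fun b => Sum.inl b ∈ U).card + W.card :=
    (card_filter_add_card_filter_not _).symm
  rw [h4, mul_add]
  refine Nat.add_le_add (Nat.mul_le_mul_left q h1) ?_
  calc q * W.card ≤ q * (m * (W.image lab).card) := Nat.mul_le_mul_left q h3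
    _ = m * ((W.image lab).card * q) := by ring
    _ ≤ _ := Nat.mul_le_mul_left m h2

theorem pf_ENDQ (hL : T_LFN) : T_ENDQ := by
  classical
  intro V _ _ G L X lab s m c hs hm hc hS hK hP hF E' hE hne U hU
  by_contra hcon
  push Not at hcon
  set Ev := E'.image Prod.fst with hEv
  set UP : Finset V := univ.filter fun b => b ∉ X ∧
    (Sum.inl b ∈ U ∨ ∀ s' < 400 * s, Sum.inr (lab b, s') ∈ U) with hUPd
  obtain ⟨u1, u2, hu, hq⟩ := blocked_le hP U UP (fun b hb => (mem_filter.1 hb).2)
  have hEcard : E'.card ≤ 2 * Ev.card := by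
    refine card_le_mul_card_image E' 2 ?_
    intro a _
    have h1 : (E'.filter fun x => x.1 = a).card ≤ (univ : Finset (Fin 2)).card := by
      refine card_le_card_of_injOn (fun x => x.2) (fun x _ => mem_coe.2 (mem_univ _)) ?_
      intro x hx y hy hxy
      rw [mem_coe, mem_filter] at hx hy
      exact Prod.ext (hx.2.trans hy.2.symm) hxy
    rwa [card_univ, Fintype.card_fin] at h1
  have hEv0 : 1 ≤ Ev.card := Finset.card_pos.2 (hne.image _)
  have hdeg : ∀ e ∈ Ev, 1199 * (s * s) ≤ (UP.bipartiteAbove G.Adj e).card := by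
    intro e he
    obtain ⟨x, hx, rfl⟩ := mem_image.1 he
    obtain ⟨N, hN, hNc⟩ := kconn_deg hK x.1
    have h1 : (N.filter fun w => w ∈ X).card < m := by
      refine lt_of_le_of_lt (card_le_card ?_) (hP.left x.1)
      intro w hw
      rw [mem_filter] at hw
      exact mem_filter.2 ⟨mem_univ _, hw.2, hN w hw.1⟩
    have h2 : (N.filter fun w => ¬ w ∈ X).card ≤ (UP.bipartiteAbove G.Adj x.1).card := by
      refine card_le_card ?_
      intro w hw
      rw [mem_filter] at hw
      rw [mem_bipartiteAbove]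
      refine ⟨mem_filter.2 ⟨mem_univ _, hw.2, ?_⟩, hN w hw.1⟩
      by_contra hno
      push Not at hno
      obtain ⟨h3, s', hs', h4⟩ := hno
      exact h4 (hcon x hx w s' hw.2 (hN w hw.1) hs' h3)
    have h3 : (N.filter fun w => w ∈ X).card + (N.filter fun w => ¬ w ∈ X).card = N.card :=
      card_filter_add_card_filter_not _
    have h4 : 1199 * (s * s) + 801 * (s * s) ≤ c := by
      refine le_trans (le_of_eq ?_) hc
      ring
    omega
  have hsee : ∀ b ∈ UP, (Ev.bipartiteBelow G.Adj b).card ≤ 2 * s := by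
    intro b _
    have h1 := hL V G L X (s + 1) (by omega) hS hF b
    rw [Nat.add_sub_cancel] at h1
    refine (card_le_card ?_).trans h1
    intro e he
    rw [mem_bipartiteBelow] at he
    obtain ⟨x, hx, rfl⟩ := mem_image.1 he.1
    obtain ⟨h2, h3⟩ := hE x hx
    refine mem_filter.2 ⟨mem_univ _, h2, ?_, he.2.symm⟩
    omega
  have hcount := card_mul_le_card_mul G.Adj hdeg hsee
  -- arithmetic
  have h400 : 400 * UP.card ≤ 801 * s * U.card := by
    have h1 : 400 * s * UP.card ≤ 400 * s * u1 + 801 * (s * s) * u2 :=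
      hq.trans (Nat.add_le_add_left (Nat.mul_le_mul_right u2 hm) _)
    have h2 : 400 * s * u1 ≤ 801 * (s * s) * u1 := by
      refine Nat.mul_le_mul_right u1 ?_
      calc 400 * s ≤ 801 * s := Nat.mul_le_mul_right s (by norm_num)
        _ = 801 * (s * 1) := by ring
        _ ≤ 801 * (s * s) := Nat.mul_le_mul_left _ (Nat.mul_le_mul_left s hs)
    have h3 : s * (400 * UP.card) ≤ s * (801 * s * U.card) := by
      rw [← hu]
      calc s * (400 * UP.card) = 400 * s * UP.card := by ring
        _ ≤ 801 * (s * s) * u1 + 801 * (s * s) * u2 := h1.trans (Nat.add_le_add_right h2 _)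
        _ = s * (801 * s * (u1 + u2)) := by ring
    exact Nat.le_of_mul_le_mul_left h3 (by omega)
  have h5 : Ev.card * (1199 * (s * s)) * 400 ≤ 413316 * (s * s) * Ev.card := by
    calc Ev.card * (1199 * (s * s)) * 400 ≤ UP.card * (2 * s) * 400 :=
          Nat.mul_le_mul_right 400 hcount
      _ = 2 * s * (400 * UP.card) := by ring
      _ ≤ 2 * s * (801 * s * U.card) := Nat.mul_le_mul_left _ h400
      _ ≤ 2 * s * (801 * s * (129 * (2 * Ev.card))) :=
          Nat.mul_le_mul_left _ (Nat.mul_le_mul_left _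
            (hU.trans (Nat.mul_le_mul_left _ hEcard)))
      _ = 413316 * (s * s) * Ev.card := by ring
  have h6 : 0 < s * s * Ev.card := Nat.mul_pos (Nat.mul_pos (by omega) (by omega)) hEv0
  have h7 : 479600 * (s * s * Ev.card) ≤ 413316 * (s * s * Ev.card) := by
    calc 479600 * (s * s * Ev.card) = Ev.card * (1199 * (s * s)) * 400 := by ring
      _ ≤ _ := h5
      _ = _ := by ring
  omega

end Pool.Agent.H12.JWQ
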