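import Pool.Agent.H56.JW.Targets

/-! Board jwq, row LFE (helper12). -/

set_option autoImplicit false

open Finset

namespace Pool.Agent.H12.JWQ

open Pool.Agent.H56.JW

lemma dg_sup_edge {V : Type} [Fintype V] [DecidableEq V] (L : SimpleGraph V) (u v w : V) :
    dg (L ⊔ SimpleGraph.edge u v) w ≤ dg L w + (if w = u ∨ w = v then 1 else 0) := by
  classical
  unfold dg
  by_cases hw : w = u ∨ w = v
  · rw [if_pos hw]
    obtain ⟨x, hx⟩ : ∃ x, (L ⊔ SimpleGraph.edge u v).neighborSet w ⊆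
        insert x (L.neighborSet w) := by
      rcases hw with rfl | rfl
      · refine ⟨v, fun z hz => ?_⟩
        rw [SimpleGraph.mem_neighborSet, SimpleGraph.sup_adj, SimpleGraph.edge_adj] at hz
        rcases hz with hz | ⟨⟨-, rfl⟩ | ⟨rfl, rfl⟩, h⟩
        · exact Set.mem_insert_of_mem _ hz
        · exact Set.mem_insert _ _
        · exact absurd rfl h
      · refine ⟨u, fun z hz => ?_⟩
        rw [SimpleGraph.mem_neighborSet, SimpleGraph.sup_adj, SimpleGraph.edge_adj] at hz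
        rcases hz with hz | ⟨⟨rfl, rfl⟩ | ⟨-, rfl⟩, h⟩
        · exact Set.mem_insert_of_mem _ hz
        · exact absurd rfl h
        · exact Set.mem_insert _ _
    exact (Set.ncard_le_ncard hx (Set.toFinite _)).trans (Set.ncard_insert_le _ _)
  · rw [if_neg hw, add_zero]
    push Not at hw
    refine Set.ncard_le_ncard (fun z hz => ?_) (Set.toFinite _)
    rw [SimpleGraph.mem_neighborSet, SimpleGraph.sup_adj, SimpleGraph.edge_adj] at hz
    rcases hz with hz | ⟨⟨h, -⟩ | ⟨h, -⟩, -⟩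
    · exact hz
    · exact absurd h hw.1
    · exact absurd h hw.2

theorem pf_LFE : T_LFE := by
  classical
  intro V _ _ G X
  let P : Set (SimpleGraph V) := {L | L ≤ G ∧ (∀ u v, L.Adj u v → u ∈ X ∧ v ∈ X) ∧
    (∀ v, dg L v ≤ 2) ∧ L.IsAcyclic}
  have hfin : P.Finite := Set.toFinite _
  have hbot : (⊥ : SimpleGraph V) ∈ P := by
    refine ⟨bot_le, fun u v h => absurd h (by simp), fun v => ?_, SimpleGraph.isAcyclic_bot⟩
    have h1 : (⊥ : SimpleGraph V).neighborSet v = ∅ := by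
      ext w
      simp
    unfold dg
    rw [h1, Set.ncard_empty]
    omega
  obtain ⟨L, -, hL⟩ := hfin.exists_le_maximal hbot
  obtain ⟨h1, h2, h3, h4⟩ := hL.prop
  refine ⟨L, h1, h2, h3, h4, ?_⟩
  intro u hu v hv huv hdu hdv hr hadj
  have hle : L ⊔ SimpleGraph.edge u v ∈ P := by
    refine ⟨sup_le h1 ((SimpleGraph.edge_le_iff _).2 (Or.inr hadj)), ?_, ?_, ?_⟩
    · intro a b hab
      rw [SimpleGraph.sup_adj, SimpleGraph.edge_adj] at hab
      rcases hab with hab | ⟨⟨rfl, rfl⟩ | ⟨rfl, rfl⟩, -⟩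
      · exact h2 a b hab
      · exact ⟨hu, hv⟩
      · exact ⟨hv, hu⟩
    · intro w
      refine (dg_sup_edge L u v w).trans ?_
      split_ifs with hw
      · rcases hw with rfl | rfl <;> omega
      · exact h3 w
    · exact h4.sup_edge_of_not_reachable hr
  have h5 := hL.le_of_ge hle le_sup_left
  have h6 : L.Adj u v := h5 (Or.inr ((SimpleGraph.edge_adj _ _ _ _).2 ⟨Or.inl ⟨rfl, rfl⟩, huv⟩))
  exact hr h6.reachable

end Pool.Agent.H12.JWQ
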