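import Pool.Agent.H56.JW.Targets

/-! Board jwq, row LFN (helper12). -/

set_option autoImplicit false

open Finset

namespace Pool.Agent.H12.JWQ

open Pool.Agent.H56.JW
open Pool.Agent.H44.HC (StarFree)

lemma dg_pos_of_reachable {V : Type} [Fintype V] {L : SimpleGraph V} {a b : V}
    (h : L.Reachable a b) (hne : a ≠ b) : 1 ≤ dg L a := by
  obtain ⟨p⟩ := h
  cases p with
  | nil => exact absurd rfl hne
  | @cons _ u _ hadj _ =>
    have h1 : (L.neighborSet a).Nonempty := ⟨u, hadj⟩
    exact (Set.ncard_pos (Set.toFinite _)).2 h1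

theorem pf_LFN (hL : T_LEAF) : T_LFN := by
  classical
  intro V _ _ G L X r hr hS hF y
  set E := univ.filter fun e => e ∈ X ∧ dg L e ≤ 1 ∧ G.Adj y e with hE
  set f : V → L.ConnectedComponent := fun v => L.connectedComponentMk v with hf
  have hreach : ∀ a b, f a = f b → L.Reachable a b := fun a b h =>
    SimpleGraph.ConnectedComponent.exact h
  have h1 : E.card ≤ 2 * (E.image f).card := by
    refine card_le_mul_card_image E 2 ?_
    intro c hc
    obtain ⟨e, he, rfl⟩ := mem_image.1 hc
    by_cases hall : ∀ w ∈ E.filter (fun x => f x = f e), w = e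
    · have h2 : E.filter (fun x => f x = f e) ⊆ {e} := fun w hw => mem_singleton.2 (hall w hw)
      have h3 := card_le_card h2
      rw [card_singleton] at h3
      omega
    · push Not at hall
      obtain ⟨w, hw, hwe⟩ := hall
      rw [mem_filter] at hw
      have hde : dg L e = 1 := by
        have h2 := dg_pos_of_reachable (hreach e w hw.2.symm) (Ne.symm hwe)
        have h3 := ((mem_filter.1 he).2).2.1
        omega
      obtain ⟨z', -, -, -, hz⟩ := hL V L hF.deg e hde
      have h2 : E.filter (fun x => f x = f e) ⊆ {e, z'} := by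
        intro a ha
        rw [mem_filter] at ha
        by_cases hae : a = e
        · rw [hae]
          exact mem_insert_self _ _
        · have h3 := dg_pos_of_reachable (hreach a e ha.2) hae
          have h4 := ((mem_filter.1 ha.1).2).2.1
          rw [hz a hae (by omega) (hreach e a ha.2.symm)]
          exact mem_insert_of_mem (mem_singleton_self _)
      exact (card_le_card h2).trans card_le_two
  have hne : Nonempty V := ⟨y⟩
  set g : L.ConnectedComponent → V := Function.invFunOn f (E : Set V) with hg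
  have hg1 : ∀ c ∈ E.image f, g c ∈ E ∧ f (g c) = c := by
    intro c hc
    obtain ⟨e, he, hec⟩ := mem_image.1 hc
    have h2 : ∃ a ∈ (E : Set V), f a = c := ⟨e, mem_coe.2 he, hec⟩
    exact ⟨mem_coe.1 (Function.invFunOn_mem h2), Function.invFunOn_eq h2⟩
  set R := (E.image f).image g with hR
  have hRc : R.card = (E.image f).card := by
    refine card_image_of_injOn ?_
    intro c hc c' hc' h
    rw [← (hg1 c (mem_coe.1 hc)).2, ← (hg1 c' (mem_coe.1 hc')).2, h]
  have hRE : ∀ a ∈ R, a ∈ E := by
    intro a ha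
    obtain ⟨c, hc, rfl⟩ := mem_image.1 ha
    exact (hg1 c hc).1
  have hRi : ∀ a ∈ R, ∀ b ∈ R, a ≠ b → ¬ G.Adj a b := by
    intro a ha b hb hab
    have hfne : f a ≠ f b := by
      obtain ⟨c, hc, rfl⟩ := mem_image.1 ha
      obtain ⟨c', hc', rfl⟩ := mem_image.1 hb
      rw [(hg1 c hc).2, (hg1 c' hc').2]
      rintro rfl
      exact hab rfl
    obtain ⟨-, ha1, ha2, -⟩ := mem_filter.1 (hRE a ha)
    obtain ⟨-, hb1, hb2, -⟩ := mem_filter.1 (hRE b hb)
    refine hF.ends a ha1 b hb1 hab ha2 hb2 ?_
    intro h
    exact hfne (SimpleGraph.ConnectedComponent.sound h)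
  have hRr : R.card ≤ r - 1 := by
    by_contra hcon
    push Not at hcon
    obtain ⟨T, hT, hTc⟩ := exists_subset_card_eq (s := R) (n := r) (by omega)
    refine hS ⟨y, T, hTc, fun w hw => (mem_filter.1 (hRE w (hT hw))).2.2.2, ?_⟩
    intro a ha b hb hab
    exact hRi a (hT (mem_coe.1 ha)) b (hT (mem_coe.1 hb)) hab
  omega

end Pool.Agent.H12.JWQ
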